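import Pool.Agent.L7h49.WN.Def

/-! Project WN, part DEG. -/

set_option autoImplicit false

namespace Pool.Agent.L7h38.WN

open Pool.Agent.L7h49.WN

theorem norm_zeta : ‖zeta‖ = 1 := by
  have h1 : ‖(1 + Complex.I : ℂ)‖ = √2 := by
    rw [Complex.norm_def, Complex.normSq_apply]
    norm_num
  have h2 : (0 : ℝ) < √2 := Real.sqrt_pos.2 (by norm_num)
  unfold zeta
  rw [norm_div, h1, Complex.norm_real, Real.norm_of_nonneg h2.le]
  exact div_self h2.ne'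

theorem near (a : ℝ) (k : ℤ) (h : |(k : ℝ) - a| ≤ 2) : ∃ p : Fin 5, k = ⌈a - 2⌉ + (p : ℕ) := by
  rw [abs_le] at h
  have h1 : ⌈a - 2⌉ ≤ k := Int.ceil_le.2 (by linarith)
  have h2 : (a - 2 : ℝ) ≤ ⌈a - 2⌉ := Int.le_ceil _
  have h3 : k - ⌈a - 2⌉ ≤ 4 := by
    have h4 : ((k - ⌈a - 2⌉ : ℤ) : ℝ) ≤ 4 := by
      push_cast
      linarith
    exact_mod_cast h4
  refine ⟨⟨(k - ⌈a - 2⌉).toNat, by omega⟩, ?_⟩
  show k = ⌈a - 2⌉ + (((k - ⌈a - 2⌉).toNat : ℕ) : ℤ)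
  omega

/-- the vertices near a point -/
noncomputable def gg (z : ℂ) (e : Fin 4 × Fin 5 × Fin 5) : V :=
  (e.1, ⌈(z * (zeta ^ (e.1 : ℕ))⁻¹).re - 2⌉ + (e.2.1 : ℕ),
    ⌈(z * (zeta ^ (e.1 : ℕ))⁻¹).im -
      ((⌈(z * (zeta ^ (e.1 : ℕ))⁻¹).re - 2⌉ + (e.2.1 : ℕ) : ℤ) : ℝ) / 2 - 2⌉ + (e.2.2 : ℕ))

theorem mem_range (z : ℂ) (w : V) (h : ‖pos w - z‖ ≤ 2) : w ∈ Set.range (gg z) := by
  obtain ⟨s, k, i⟩ := w
  obtain ⟨y, hy⟩ : ∃ y, y = z * (zeta ^ (s : ℕ))⁻¹ := ⟨_, rfl⟩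
  have h0 : zeta ≠ 0 := by
    intro h1
    have := norm_zeta
    rw [h1, norm_zero] at this
    norm_num at this
  have h1 : zeta ^ (s : ℕ) ≠ 0 := pow_ne_zero _ h0
  have h2 : pos (s, k, i) - z = zeta ^ (s : ℕ) * (((k : ℂ) + ((k : ℂ) / 2 + (i : ℂ)) * Complex.I) - y) := by
    rw [hy, mul_sub]
    congr 1
    field_simp
  rw [h2, norm_mul, norm_pow, norm_zeta, one_pow, one_mul] at h
  have h3 := (Complex.abs_re_le_norm _).trans h
  have h4 := (Complex.abs_im_le_norm _).trans h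
  have h5 : (((k : ℂ) + ((k : ℂ) / 2 + (i : ℂ)) * Complex.I) - y).re = k - y.re := by
    simp
  have h6 : (((k : ℂ) + ((k : ℂ) / 2 + (i : ℂ)) * Complex.I) - y).im = i - (y.im - k / 2) := by
    simp
    ring
  rw [h5] at h3
  rw [h6] at h4
  obtain ⟨p, hp⟩ := near _ _ h3
  obtain ⟨q, hq⟩ := near _ _ h4
  refine ⟨(s, p, q), ?_⟩
  unfold gg
  simp only
  rw [← hy, ← hp, ← hq]

theorem s_DEG : S_DEG := by
  intro v
  have h1 : G.neighborSet v ⊆ Set.range (gg (pos v)) := by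
    intro w hw
    apply mem_range
    rw [norm_sub_rev]
    exact hw.2
  have h2 : (Set.range (gg (pos v))).Finite := Set.finite_range _
  refine ⟨h2.subset h1, ?_⟩
  refine (Set.ncard_le_ncard h1 h2).trans ?_
  rw [← Set.image_univ]
  refine (Set.ncard_image_le (Set.toFinite _)).trans ?_
  rw [Set.ncard_univ, Nat.card_eq_fintype_card]
  simp

end Pool.Agent.L7h38.WN
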